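import Pool.Agent.H23.GC.Targets

/-!
# Vectors of a given norm: basic facts, modules V, L
-/

set_option autoImplicit false

open Finset Pool.Agent.H23.GW Pool.Agent.H23.GC
open scoped Classical Nat

namespace Pool.Agent.H2.GC

noncomputable section

variable {ι : Type} [Fintype ι]

theorem mem_Vn (n : ℕ) (c : ι → ℤ) : c ∈ Vn ι n ↔ nrm c = n := by
  unfold Vn
  rw [mem_filter]
  refine ⟨fun h => h.2, fun h => ⟨?_, h⟩⟩
  rw [Fintype.mem_piFinset]
  intro i
  have h1 : (c i).natAbs ≤ n := by
    rw [← h]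
    exact Finset.single_le_sum (f := fun i => (c i).natAbs) (fun i _ => Nat.zero_le _)
      (mem_univ i)
  rw [mem_Icc]
  omega

theorem v : T_V := fun _ _ n c => mem_Vn n c

/-- sign of a direction -/
def sg (b : Bool) : ℤ := if b then 1 else -1

theorem sg_eq (b : Bool) : sg b = 1 ∨ sg b = -1 := by
  unfold sg
  cases b <;> simp

/-- `x` occurs in `c` -/
def occ (x : ι × Bool) (c : ι → ℤ) : Prop := 0 < sg x.2 * c x.1

theorem nrm_triangle (a b : ι → ℤ) : nrm (a + b) ≤ nrm a + nrm b := by
  unfold nrm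
  rw [← Finset.sum_add_distrib]
  exact Finset.sum_le_sum fun i _ => Int.natAbs_add_le _ _

theorem nrm_neg (a : ι → ℤ) : nrm (-a) = nrm a := by
  unfold nrm
  simp

theorem nrm_zero : nrm (0 : ι → ℤ) = 0 := by
  unfold nrm
  simp

theorem eq_zero_of_nrm {a : ι → ℤ} (h : nrm a = 0) : a = 0 := by
  funext i
  unfold nrm at h
  rw [Finset.sum_eq_zero_iff] at h
  have := h i (mem_univ i)
  simpa using this

theorem nrm_split (c : ι → ℤ) (i : ι) :
    nrm c = (c i).natAbs + ∑ j ∈ univ.erase i, (c j).natAbs := by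
  exact (Finset.add_sum_erase _ (fun i => (c i).natAbs) (mem_univ i)).symm

theorem sum_erase_sub (c : ι → ℤ) (x : ι × Bool) :
    ∑ j ∈ univ.erase x.1, ((c - dv x) j).natAbs = ∑ j ∈ univ.erase x.1, (c j).natAbs := by
  refine Finset.sum_congr rfl fun j hj => ?_
  rw [Pi.sub_apply]
  unfold dv
  rw [Pi.single_eq_of_ne (ne_of_mem_erase hj), sub_zero]

omit [Fintype ι] in
theorem dv_self (x : ι × Bool) : dv x x.1 = sg x.2 := by
  unfold dv sg
  rw [Pi.single_eq_same]

theorem nrm_sub_occ {c : ι → ℤ} {x : ι × Bool} (h : occ x c) : nrm (c - dv x) + 1 = nrm c := by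
  rw [nrm_split (c - dv x) x.1, nrm_split c x.1, sum_erase_sub, Pi.sub_apply, dv_self]
  unfold occ at h
  rcases sg_eq x.2 with h1 | h1 <;> rw [h1] at h ⊢ <;> omega

theorem nrm_sub_not_occ {c : ι → ℤ} {x : ι × Bool} (h : ¬ occ x c) :
    nrm (c - dv x) = nrm c + 1 := by
  rw [nrm_split (c - dv x) x.1, nrm_split c x.1, sum_erase_sub, Pi.sub_apply, dv_self]
  unfold occ at h
  rcases sg_eq x.2 with h1 | h1 <;> rw [h1] at h ⊢ <;> omega

theorem exists_occ {c : ι → ℤ} (h : nrm c ≠ 0) : ∃ x : ι × Bool, occ x c := by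
  by_contra hne
  refine h ?_
  unfold nrm
  refine Finset.sum_eq_zero fun i _ => ?_
  have h1 : ¬ occ (i, true) c := fun h' => hne ⟨_, h'⟩
  have h2 : ¬ occ (i, false) c := fun h' => hne ⟨_, h'⟩
  unfold occ sg at h1 h2
  simp only [if_true, Bool.false_eq_true, if_false] at h1 h2
  omega

theorem ell_eq (c : ι → ℤ) : ell c = #{x : ι × Bool | occ x c} := by
  unfold ell
  refine Finset.card_bij' (fun i _ => (i, decide (0 < c i))) (fun x _ => x.1) ?_ ?_ ?_ ?_
  · intro i hi
    rw [mem_filter] at hi ⊢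
    refine ⟨mem_univ _, ?_⟩
    unfold occ sg
    by_cases h : 0 < c i
    · simp [h]
    · have := hi.2
      simp only [h, decide_false, Bool.false_eq_true, if_false]
      omega
  · intro x hx
    rw [mem_filter] at hx ⊢
    refine ⟨mem_univ _, fun h0 => ?_⟩
    have := hx.2
    unfold occ at this
    rw [h0, mul_zero] at this
    exact lt_irrefl _ this
  · intro i _
    rfl
  · intro x hx
    rw [mem_filter] at hx
    have h1 := hx.2
    unfold occ sg at h1
    obtain ⟨i, b⟩ := x
    cases b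
    · simp only [Bool.false_eq_true, if_false] at h1
      have : ¬ 0 < c i := by omega
      simp [this]
    · simp only [if_true] at h1
      have : 0 < c i := by omega
      simp [this]

/-- splitting a vector -/
theorem exists_split (q : ℕ) : ∀ (v : ι → ℤ) (p : ℕ), nrm v = p + q →
    ∃ a b : ι → ℤ, v = a + b ∧ nrm a = p ∧ nrm b = q := by
  induction q with
  | zero =>
    intro v p h
    exact ⟨v, 0, by simp, h, nrm_zero⟩
  | succ q ih =>
    intro v p h
    obtain ⟨x, hx⟩ := exists_occ (c := v) (by omega)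
    have h1 := nrm_sub_occ hx
    obtain ⟨a, b, h2, h3, h4⟩ := ih (v - dv x) p (by omega)
    refine ⟨a, b + dv x, ?_, h3, ?_⟩
    · rw [← add_assoc, ← h2, sub_add_cancel]
    · have h5 : v = a + (b + dv x) := by rw [← add_assoc, ← h2, sub_add_cancel]
      have h6 : nrm v ≤ nrm a + nrm (b + dv x) := by
        conv_lhs => rw [h5]
        exact nrm_triangle _ _
      have h7 : b + dv x - dv x = b := add_sub_cancel_right _ _
      by_cases h8 : occ x (b + dv x)
      · have := nrm_sub_occ h8
        rw [h7] at this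
        omega
      · have := nrm_sub_not_occ h8
        rw [h7] at this
        omega

theorem ker_short {G : Type} [AddCommGroup G] {s : ℕ} {ev : (ι → ℤ) →+ G} (h : PC s ev)
    {v : ι → ℤ} (hv : ev v = 0) (hn : nrm v ≤ 2 * s) : v = 0 := by
  obtain ⟨a, b, hab, ha, hb⟩ := exists_split (min (nrm v) s) v (nrm v - min (nrm v) s)
    (by omega)
  have h1 : ev a = ev (-b) := by
    rw [hab, map_add] at hv
    rw [map_neg]
    exact eq_neg_of_add_eq_zero_left hv
  have h2 : a = -b := (h (ev a)).unique ⟨by omega, rfl⟩ ⟨by rw [nrm_neg]; omega, h1.symm⟩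
  rw [hab, h2, neg_add_cancel]

theorem parity (c d : ι → ℤ) : Even (nrm (c - d) + nrm c + nrm d) := by
  unfold nrm
  rw [← Finset.sum_add_distrib, ← Finset.sum_add_distrib]
  rw [even_iff_two_dvd]
  refine Finset.dvd_sum fun i _ => ?_
  rw [Pi.sub_apply]
  omega

theorem l : T_L := by
  intro ι _ G _ s ev h
  refine ⟨fun v hv hn => ker_short h hv hn, ?_⟩
  intro c d hcd he
  refine ⟨?_, ?_, parity c d⟩
  · by_contra hlt
    refine hcd ?_
    have h1 : ev (c - d) = 0 := by rw [map_sub, he, sub_self]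
    exact sub_eq_zero.1 (ker_short h h1 (by omega))
  · have := nrm_triangle c (-d)
    rw [nrm_neg, ← sub_eq_add_neg] at this
    exact this

end

end Pool.Agent.H2.GC
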