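import Pool.Agent.H2.GC.N5

/-!
# Module AL
-/

set_option autoImplicit false

open Finset Pool.Agent.H23.GW Pool.Agent.H23.GC
open scoped Classical Nat

namespace Pool.Agent.H2.GC

noncomputable section

variable {ι : Type} [Fintype ι]

open Pool.Agent.H59.GC (cnt mu cnt_of_vs vs_apply nrm_vs_le)

omit [Fintype ι] in
theorem support_vs {κ : Type} [Fintype κ] (w : κ → ι × Bool) {i : ι} (h : vs w i ≠ 0) :
    ∃ k, (w k).1 = i := by
  by_contra hcon
  push Not at hcon
  refine h ?_
  unfold vs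
  rw [Finset.sum_apply]
  refine Finset.sum_eq_zero fun k _ => ?_
  unfold dv
  exact Pi.single_eq_of_ne (Ne.symm (hcon k)) _

theorem vs_ne_zero {κ : Type} [Fintype κ] (w : κ → ι × Bool) (h : nrm (vs w) = Fintype.card κ)
    (k : κ) : vs w (w k).1 ≠ 0 := by
  have h1 := cnt_of_vs (w := w) rfl h (w k)
  have h2 : 0 < cnt w (w k) := by
    refine Nat.pos_of_ne_zero fun h0 => ?_
    exact (cnt_eq_zero w (w k)).1 h0 k rfl
  intro h0
  rw [h1] at h2
  unfold mu at h2
  rw [h0] at h2
  simp at h2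

theorem ell_vs_five (w : Fin 5 → ι × Bool) (h1 : w 0 = w 1) (h2 : w 2 = w 3) :
    ell (vs w) ≤ 3 := by
  have h3 : ({i | vs w i ≠ 0} : Finset ι) ⊆ {(w 0).1, (w 2).1, (w 4).1} := by
    intro i hi
    rw [mem_filter] at hi
    obtain ⟨k, hk⟩ := support_vs w hi.2
    rw [← hk]
    simp only [mem_insert, mem_singleton]
    fin_cases k
    · exact Or.inl rfl
    · exact Or.inl (by show (w 1).1 = _; rw [h1])
    · exact Or.inr (Or.inl rfl)
    · exact Or.inr (Or.inl (by show (w 3).1 = _; rw [h2]))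
    · exact Or.inr (Or.inr rfl)
  exact (card_le_card h3).trans card_le_three

theorem ell_vs_four (w : Fin 4 → ι × Bool) (h1 : w 0 = w 1) :
    ell (vs w) ≤ 3 := by
  have h3 : ({i | vs w i ≠ 0} : Finset ι) ⊆ {(w 0).1, (w 2).1, (w 3).1} := by
    intro i hi
    rw [mem_filter] at hi
    obtain ⟨k, hk⟩ := support_vs w hi.2
    rw [← hk]
    simp only [mem_insert, mem_singleton]
    fin_cases k
    · exact Or.inl rfl
    · exact Or.inl (by show (w 1).1 = _; rw [h1])
    · exact Or.inr (Or.inl rfl)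
    · exact Or.inr (Or.inr rfl)
  exact (card_le_card h3).trans card_le_three

theorem ell_neg' (a : ι → ℤ) : ell (-a) = ell a := by
  unfold ell
  simp

/-- words of a vector with the first letter prescribed -/
theorem first_letter (hW : T_W) (n : ℕ) (v : ι → ℤ) (x : ι × Bool) (hv : nrm v = n + 1) :
    #{u : Fin (n + 1) → ι × Bool | vs u = v ∧ u 0 = x} ≤ n ! := by
  by_cases hne : ∃ u : Fin (n + 1) → ι × Bool, vs u = v ∧ u 0 = x
  · have hsplit : ∀ u : Fin (n + 1) → ι × Bool, vs u = dv (u 0) + vs (fun k : Fin n => u k.succ) := by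
      intro u
      unfold vs
      rw [Fin.sum_univ_succ]
    obtain ⟨u0, hu1, hu2⟩ := hne
    have h1 : vs (fun k : Fin n => u0 k.succ) = v - dv x := by
      rw [← hu1, hsplit u0, hu2, add_sub_cancel_left]
    have h2 : nrm (v - dv x) = n := by
      have h3 := (hW ι (Fin n)).1 (fun k : Fin n => u0 k.succ)
      rw [h1, Fintype.card_fin] at h3
      by_cases h4 : occ x v
      · have := nrm_sub_occ h4
        omega
      · have := nrm_sub_not_occ h4
        omega
    have h3 := ((hW ι (Fin n)).2 (v - dv x) (by rw [h2, Fintype.card_fin])).2.1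
    rw [Fintype.card_fin] at h3
    refine le_trans ?_ h3
    refine card_le_card_of_injOn (fun u => fun k : Fin n => u k.succ) ?_ ?_
    · intro u hu
      simp only [coe_filter, mem_univ, true_and, Set.mem_ofPred_eq] at hu ⊢
      rw [← hu.1, hsplit u, hu.2, add_sub_cancel_left]
    · intro u hu u' hu' he
      simp only [coe_filter, mem_univ, true_and, Set.mem_ofPred_eq] at hu hu'
      funext k
      refine Fin.cases ?_ (fun k => ?_) k
      · rw [hu.2, hu'.2]
      · exact congrFun he k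
  · rw [Finset.card_eq_zero.2]
    · exact Nat.zero_le _
    · refine Finset.filter_eq_empty_iff.2 fun u _ h => hne ⟨u, h⟩

/-- the first block -/
def blkA (z : Fin 9 → ι × Bool) : Fin 5 → ι × Bool := fun k => z (Fin.castAdd 4 k)

/-- the second block -/
def blkB (z : Fin 9 → ι × Bool) : Fin 4 → ι × Bool := fun k => z (Fin.natAdd 5 k)

omit [Fintype ι] in
theorem vs_blk (z : Fin 9 → ι × Bool) : vs z = vs (blkA z) + vs (blkB z) := by
  unfold vs blkA blkB
  exact Fin.sum_univ_add (fun k : Fin (5 + 4) => dv (z k))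

omit [Fintype ι] in
theorem blk_inj {z z' : Fin 9 → ι × Bool} (h1 : blkA z = blkA z') (h2 : blkB z = blkB z') :
    z = z' := by
  funext k
  refine Fin.addCases (m := 5) (n := 4) (fun i => ?_) (fun i => ?_) k
  · exact congrFun h1 i
  · exact congrFun h2 i

/-- fibre bound: words with given first block -/
theorem fibre {G : Type} [AddCommGroup G] {ev : (ι → ℤ) →+ G} (hPC : PC 4 ev) (hW : T_W)
    (Z : Finset (Fin 9 → ι × Bool)) (hZ : ∀ z ∈ Z, nrm (vs z) = 9 ∧ ev (vs z) = 0)
    (F : Finset (Fin 5 → ι × Bool)) (hF : ∀ z ∈ Z, blkA z ∈ F) (n : ℕ)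
    (Q : (Fin 5 → ι × Bool) → (Fin 4 → ι × Bool) → Prop) (hQ : ∀ z ∈ Z, Q (blkA z) (blkB z))
    (hn : ∀ w ∈ F, ∀ v : ι → ℤ, nrm v = 4 → (∃ z ∈ Z, vs (blkB z) = v) →
      #{u : Fin 4 → ι × Bool | vs u = v ∧ Q w u} ≤ n) : #Z ≤ n * #F := by
  refine card_le_mul_card_image_of_maps_to (f := fun z => blkA z) hF _ ?_
  intro w hw
  by_cases hne : ∃ z ∈ Z, blkA z = w
  · obtain ⟨z0, hz0, hz0w⟩ := hne
    have hnrm : ∀ z ∈ Z, nrm (vs (blkB z)) = 4 := by
      intro z hz
      have h1 := (hW ι (Fin 5)).1 (blkA z)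
      have h2 := (hW ι (Fin 4)).1 (blkB z)
      have h3 := nrm_triangle (vs (blkA z)) (vs (blkB z))
      rw [← vs_blk, (hZ z hz).1] at h3
      rw [Fintype.card_fin] at h1 h2
      omega
    refine le_trans ?_ (hn w hw (vs (blkB z0)) (hnrm z0 hz0) ⟨z0, hz0, rfl⟩)
    refine card_le_card_of_injOn (fun z => blkB z) ?_ ?_
    · intro z hz
      simp only [coe_filter, Set.mem_ofPred_eq, mem_univ, true_and] at hz ⊢
      refine ⟨?_, by rw [← hz.2]; exact hQ z hz.1⟩
      have h4 := (hZ z hz.1).2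
      have h5 := (hZ z0 hz0).2
      rw [vs_blk, map_add, hz.2] at h4
      rw [vs_blk, map_add, hz0w] at h5
      have h6 : ev (vs (blkB z)) = ev (vs (blkB z0)) := by
        rw [← h5] at h4
        exact add_left_cancel h4
      exact (hPC (ev (vs (blkB z0)))).unique ⟨(hnrm z hz.1).le, h6⟩ ⟨(hnrm z0 hz0).le, rfl⟩
    · intro z hz z' hz' he
      simp only [coe_filter, Set.mem_ofPred_eq] at hz hz'
      exact blk_inj (hz.2.trans hz'.2.symm) he
  · rw [Finset.card_eq_zero.2]
    · exact Nat.zero_le _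
    · refine Finset.filter_eq_empty_iff.2 fun z hz h => hne ⟨z, hz, h⟩

/-- negligible words -/
theorem negl {G : Type} [AddCommGroup G] {ev : (ι → ℤ) →+ G} (hW : T_W)
    (Z : Finset (Fin 9 → ι × Bool)) (hZ : ∀ z ∈ Z, nrm (vs z) = 9 ∧ ev (vs z) = 0 ∧
      ell (vs z) ≤ 5) :
    #Z ≤ 9 ! * #{v ∈ Vn ι 9 | ev v = 0 ∧ ell v ≤ 6 ∧ ¬ X1 v} := by
  refine card_le_mul_card_image_of_maps_to (f := fun z => vs z) ?_ _ ?_
  · intro z hz
    obtain ⟨h1, h2, h3⟩ := hZ z hz
    rw [mem_filter, mem_Vn]
    refine ⟨h1, h2, by omega, fun h => ?_⟩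
    have := h.1
    omega
  · intro v hv
    rw [mem_filter, mem_Vn] at hv
    have h1 := ((hW ι (Fin 9)).2 v (by rw [hv.1, Fintype.card_fin])).2.1
    rw [Fintype.card_fin] at h1
    refine le_trans (card_le_card ?_) h1
    intro z hz
    simp only [mem_filter, mem_univ, true_and] at hz ⊢
    exact hz.2

/-- the words of the first block -/
def Wd (ι : Type) [Fintype ι] : Finset (Fin 5 → ι × Bool) := {w | w 0 = w 1 ∧ w 2 = w 3}

theorem card_Wd : #(Wd ι) ≤ (2 * Fintype.card ι) ^ 3 := by
  have h1 : #(Wd ι) ≤ #(univ : Finset (Fin 3 → ι × Bool)) := by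
    refine card_le_card_of_injOn (fun w => ![w 0, w 2, w 4]) (fun _ _ => mem_coe.2 (mem_univ _)) ?_
    intro w hw w' hw' he
    simp only [Wd, coe_filter, mem_univ, true_and, Set.mem_ofPred_eq] at hw hw'
    have e0 := congrFun he 0
    have e1 := congrFun he 1
    have e2 := congrFun he 2
    simp at e0 e1 e2
    funext k
    fin_cases k
    · exact e0
    · show w 1 = w' 1
      rw [← hw.1, ← hw'.1, e0]
    · exact e1
    · show w 3 = w' 3
      rw [← hw.2, ← hw'.2, e1]
    · exact e2
  refine h1.trans (le_of_eq ?_)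
  rw [card_univ, Fintype.card_fun, Fintype.card_prod, Fintype.card_bool, Fintype.card_fin,
    mul_comm]

/-- module AL -/
theorem al_proof (hW : T_W) (hNX : T_NX) : T_AL := by
  obtain ⟨C, hC⟩ := hNX
  refine ⟨3 * (9 ! * |C| + 9 ! * |C|), ?_⟩
  intro ι _ G _ _ ev hPC hodd hm
  obtain ⟨-, h9⟩ := hC ι G ev hPC hodd hm
  have hM : (0 : ℝ) ≤ (Fintype.card ι : ℝ) ^ 2 := by positivity
  set Ng := #{v ∈ Vn ι 9 | ev v = 0 ∧ ell v ≤ 6 ∧ ¬ X1 v} with hNg
  -- the chosen representative
  choose r hr using fun g : G => (hPC g).exists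
  set W3 := (Wd ι).filter fun w => ell (r (ev (vs w))) = 3 with hW3
  set W4 := (Wd ι).filter fun w => ell (r (ev (vs w))) = 4 with hW4
  have hW34 : #W3 + #W4 ≤ (2 * Fintype.card ι) ^ 3 := by
    rw [← Finset.card_union_of_disjoint]
    · refine (card_le_card ?_).trans card_Wd
      intro w hw
      rw [mem_union, hW3, hW4, mem_filter, mem_filter] at hw
      rcases hw with h | h
      · exact h.1
      · exact h.1
    · rw [Finset.disjoint_left]
      intro w h3 h4
      rw [hW3, mem_filter] at h3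
      rw [hW4, mem_filter] at h4
      omega
  -- facts on words in the kernel
  have hfact : ∀ z : Fin 9 → ι × Bool, nrm (vs z) = 9 → ev (vs z) = 0 →
      nrm (vs (blkA z)) = 5 ∧ nrm (vs (blkB z)) = 4 ∧
      ell (r (ev (vs (blkA z)))) = ell (vs (blkB z)) ∧
      ell (vs z) ≤ ell (vs (blkA z)) + ell (vs (blkB z)) := by
    intro z hz1 hz2
    have h1 := (hW ι (Fin 5)).1 (blkA z)
    have h2 := (hW ι (Fin 4)).1 (blkB z)
    have h3 := nrm_triangle (vs (blkA z)) (vs (blkB z))
    rw [← vs_blk, hz1] at h3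
    rw [Fintype.card_fin] at h1 h2
    have h4 : r (ev (vs (blkA z))) = - vs (blkB z) := by
      refine (hPC (ev (vs (blkA z)))).unique (hr _) ⟨by rw [nrm_neg]; omega, ?_⟩
      rw [vs_blk, map_add] at hz2
      rw [map_neg]
      exact (eq_neg_of_add_eq_zero_left hz2).symm
    refine ⟨by omega, by omega, by rw [h4, ell_neg'], ?_⟩
    have h5 := Pool.Agent.H19.GC.ell_sub_le (vs (blkA z)) (- vs (blkB z))
    rw [ell_neg', sub_neg_eq_add, ← vs_blk] at h5
    exact h5
  -- version A
  have hA : al ev ≤ 2 * #W3 + 9 ! * Ng := by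
    set σ : Equiv.Perm (Fin 9) := Equiv.swap 5 6 * Equiv.swap 4 5 with hσ
    have s0 : σ 0 = 0 := by decide
    have s1 : σ 1 = 1 := by decide
    have s2 : σ 2 = 2 := by decide
    have s3 : σ 3 = 3 := by decide
    have s5 : σ 5 = 4 := by decide
    have s6 : σ 6 = 5 := by decide
    set ZA : Finset (Fin 9 → ι × Bool) :=
      {z | (nrm (vs z) = 9 ∧ ev (vs z) = 0) ∧ z 0 = z 1 ∧ z 2 = z 3 ∧ z 5 = z 6} with hZA
    have hal : al ev ≤ #ZA := by
      unfold al
      refine card_le_card_of_injOn (fun z => z ∘ σ) ?_ ?_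
      · intro z hz
        simp only [coe_filter, mem_filter, Zr, mem_univ, true_and, Set.mem_ofPred_eq,
          Fintype.card_fin] at hz
        simp only [hZA, coe_filter, mem_univ, true_and, Set.mem_ofPred_eq, Function.comp,
          s0, s1, s2, s3, s5, s6]
        have h1 : vs (z ∘ ⇑σ) = vs z := by
          unfold vs
          exact Equiv.sum_comp σ fun k => dv (z k)
        rw [h1]
        exact hz
      · intro z _ z' _ he
        funext k
        have := congrFun he (σ.symm k)
        simpa using this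
    have h3 : #(ZA.filter fun z => ell (vs (blkB z)) = 3) ≤ 2 * #W3 := by
      refine fibre hPC hW _ ?_ W3 ?_ 2 (fun _ u => u 0 = u 1) ?_ ?_
      · intro z hz
        simp only [hZA, mem_filter, mem_univ, true_and] at hz
        exact hz.1.1
      · intro z hz
        simp only [hZA, mem_filter, mem_univ, true_and] at hz
        obtain ⟨⟨⟨a1, a2⟩, a3, a4, a5⟩, a6⟩ := hz
        have hf := hfact z a1 a2
        simp only [hW3, Wd, mem_filter, mem_univ, true_and]
        exact ⟨⟨a3, a4⟩, by rw [hf.2.2.1, a6]⟩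
      · intro z hz
        simp only [hZA, mem_filter, mem_univ, true_and] at hz
        exact hz.1.2.2.2
      · intro w _ v hv hex
        obtain ⟨z, hz, hzv⟩ := hex
        simp only [mem_filter] at hz
        have h4 := ((hW ι (Fin 4)).2 v (by rw [hv, Fintype.card_fin])).2.2.2.1 0 1 (by decide)
          (by rw [← hzv, hz.2, Fintype.card_fin])
        rw [Fintype.card_fin] at h4
        refine (card_le_card fun u hu => ?_).trans (h4.le.trans (by decide))
        simp only [mem_filter, mem_univ, true_and] at hu ⊢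
        exact hu
    have h2 : #(ZA.filter fun z => ¬ ell (vs (blkB z)) = 3) ≤ 9 ! * Ng := by
      refine negl hW _ ?_
      intro z hz
      simp only [hZA, mem_filter, mem_univ, true_and] at hz
      obtain ⟨⟨⟨a1, a2⟩, a3, a4, a5⟩, a6⟩ := hz
      obtain ⟨b1, b2, b3, b4⟩ := hfact z a1 a2
      refine ⟨a1, a2, ?_⟩
      have b5 := ell_vs_five (blkA z) a3 a4
      have b6 := ell_vs_four (blkB z) a5
      omega
    calc al ev ≤ #ZA := hal
      _ = #(ZA.filter fun z => ell (vs (blkB z)) = 3) +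
          #(ZA.filter fun z => ¬ ell (vs (blkB z)) = 3) :=
          (Finset.card_filter_add_card_filter_not _).symm
      _ ≤ _ := Nat.add_le_add h3 h2
  -- version B
  have hB : al ev ≤ 6 * #W4 + 9 ! * Ng := by
    set ZB : Finset (Fin 9 → ι × Bool) :=
      {z | (nrm (vs z) = 9 ∧ ev (vs z) = 0) ∧ z 0 = z 1 ∧ z 2 = z 3 ∧ z 4 = z 5} with hZB
    have hal : al ev ≤ #ZB := by
      unfold al
      refine card_le_card ?_
      intro z hz
      simp only [mem_filter, Zr, mem_univ, true_and, Fintype.card_fin] at hz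
      simp only [hZB, mem_filter, mem_univ, true_and]
      exact hz
    have h3 : #(ZB.filter fun z => ell (vs (blkB z)) = 4) ≤ 6 * #W4 := by
      refine fibre hPC hW _ ?_ W4 ?_ 6 (fun w u => u 0 = w 4) ?_ ?_
      · intro z hz
        simp only [hZB, mem_filter, mem_univ, true_and] at hz
        exact hz.1.1
      · intro z hz
        simp only [hZB, mem_filter, mem_univ, true_and] at hz
        obtain ⟨⟨⟨a1, a2⟩, a3, a4, a5⟩, a6⟩ := hz
        have hf := hfact z a1 a2
        simp only [hW4, Wd, mem_filter, mem_univ, true_and]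
        exact ⟨⟨a3, a4⟩, by rw [hf.2.2.1, a6]⟩
      · intro z hz
        simp only [hZB, mem_filter, mem_univ, true_and] at hz
        exact hz.1.2.2.2.symm
      · intro w _ v hv _
        refine (card_le_card fun u hu => ?_).trans ((first_letter hW 3 v (w 4) hv).trans
          (by decide))
        simp only [mem_filter, mem_univ, true_and] at hu ⊢
        exact hu
    have h2 : #(ZB.filter fun z => ¬ ell (vs (blkB z)) = 4) ≤ 9 ! * Ng := by
      refine negl hW _ ?_
      intro z hz
      simp only [hZB, mem_filter, mem_univ, true_and] at hz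
      obtain ⟨⟨⟨a1, a2⟩, a3, a4, a5⟩, a6⟩ := hz
      obtain ⟨b1, b2, b3, b4⟩ := hfact z a1 a2
      refine ⟨a1, a2, ?_⟩
      have b5 := ell_vs_five (blkA z) a3 a4
      have b7 := ell_le_nrm' (vs (blkB z))
      -- the common letter
      have b8 : vs (blkA z) (blkA z 4).1 ≠ 0 :=
        vs_ne_zero (blkA z) (by rw [b1, Fintype.card_fin]) 4
      have b9 : vs (blkB z) (blkB z 0).1 ≠ 0 :=
        vs_ne_zero (blkB z) (by rw [b2, Fintype.card_fin]) 0
      have b10 : blkA z 4 = blkB z 0 := a5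
      rw [← b10] at b9
      have b11 : ell (vs z) ≠ ell (vs (blkA z)) + ell (vs (blkB z)) := by
        intro he
        have h5 : ell (vs (blkA z) - (- vs (blkB z))) =
            ell (vs (blkA z)) + ell (- vs (blkB z)) := by
          rw [sub_neg_eq_add, ← vs_blk, ell_neg', he]
        rcases disj_of_ell h5 (blkA z 4).1 with h | h
        · exact b8 h
        · rw [Pi.neg_apply, neg_eq_zero] at h
          exact b9 h
      omega
    calc al ev ≤ #ZB := hal
      _ = #(ZB.filter fun z => ell (vs (blkB z)) = 4) +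
          #(ZB.filter fun z => ¬ ell (vs (blkB z)) = 4) :=
          (Finset.card_filter_add_card_filter_not _).symm
      _ ≤ _ := Nat.add_le_add h3 h2
  have hA' : (al ev : ℝ) ≤ 2 * #W3 + 9 ! * Ng := by exact_mod_cast hA
  have hB' : (al ev : ℝ) ≤ 6 * #W4 + 9 ! * Ng := by exact_mod_cast hB
  have hW' : (#W3 : ℝ) + #W4 ≤ (2 * Fintype.card ι : ℝ) ^ 3 := by exact_mod_cast hW34
  have hN' : (9 ! : ℝ) * Ng ≤ 9 ! * |C| * (Fintype.card ι : ℝ) ^ 2 := by
    rw [mul_assoc]
    refine mul_le_mul_of_nonneg_left ?_ (by positivity)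
    exact h9.trans (mul_le_mul_of_nonneg_right (le_abs_self _) hM)
  have h0 : 0 ≤ (9 ! : ℝ) * |C| * (Fintype.card ι : ℝ) ^ 2 := by positivity
  have h1 : (3 * (9 ! * |C| + 9 ! * |C|) : ℝ) * (Fintype.card ι : ℝ) ^ 2 =
      6 * ((9 ! : ℝ) * |C| * (Fintype.card ι : ℝ) ^ 2) := by ring
  rw [h1]
  linarith

end

end Pool.Agent.H2.GC
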