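import Pool.Agent.H2.GC.Base

/-!
# Modules I and F
-/

set_option autoImplicit false

open Finset Pool.Agent.H23.GW Pool.Agent.H23.GC
open scoped Classical Nat

namespace Pool.Agent.H2.GC

noncomputable section

variable {ι : Type} [Fintype ι]

theorem nrm_add_le (c : ι → ℤ) (x : ι × Bool) : nrm (c + dv x) ≤ nrm c + 1 := by
  have h7 : c + dv x - dv x = c := add_sub_cancel_right _ _
  by_cases h8 : occ x (c + dv x)
  · have := nrm_sub_occ h8
    rw [h7] at this
    omega
  · have := nrm_sub_not_occ h8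
    rw [h7] at this
    omega

theorem occ_of_nrm {c : ι → ℤ} {x : ι × Bool} (h : nrm (c + dv x) = nrm c + 1) :
    occ x (c + dv x) := by
  have h7 : c + dv x - dv x = c := add_sub_cancel_right _ _
  by_contra h8
  have := nrm_sub_not_occ h8
  rw [h7] at this
  omega

theorem count_dir {G : Type} [AddCommGroup G] {s : ℕ} {ev : (ι → ℤ) →+ G} (h : PC s ev)
    {d : ι → ℤ} (hd : nrm d = s) (x : ι × Bool) :
    #{c ∈ Vn ι (s + 1) | ev c = ev d ∧ occ x c} = if occ x d then 0 else 1 := by
  split_ifs with hx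
  · rw [Finset.card_eq_zero, Finset.filter_eq_empty_iff]
    rintro c hc ⟨h1, h2⟩
    rw [mem_Vn] at hc
    have h3 := nrm_sub_occ h2
    have h4 := nrm_sub_occ hx
    have h5 : c - dv x = d - dv x :=
      (h (ev (c - dv x))).unique ⟨by omega, rfl⟩ ⟨by omega, by rw [map_sub, map_sub, h1]⟩
    have h6 : c = d := sub_left_injective h5
    rw [h6] at hc
    omega
  · have h1 := nrm_sub_not_occ hx
    obtain ⟨r, ⟨hr1, hr2⟩, -⟩ := h (ev (d - dv x))
    have h2 : ev (r + dv x) = ev d := by rw [map_add, hr2, map_sub, sub_add_cancel]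
    have h3 := nrm_add_le r x
    have h4 : nrm (r + dv x) = s + 1 := by
      by_contra hne
      have h5 : r + dv x = d := (h (ev d)).unique ⟨by omega, h2⟩ ⟨hd.le, rfl⟩
      have h6 : r = d - dv x := by rw [← h5, add_sub_cancel_right]
      rw [← h6] at h1
      omega
    have h5 : occ x (r + dv x) := occ_of_nrm (by omega)
    rw [Finset.card_eq_one]
    refine ⟨r + dv x, ?_⟩
    ext c
    rw [mem_filter, mem_singleton, mem_Vn]
    constructor
    · rintro ⟨hc1, hc2, hc3⟩
      have h6 := nrm_sub_occ hc3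
      have h7 : c - dv x = r := (h (ev (d - dv x))).unique
        ⟨by omega, by rw [map_sub, map_sub, hc2]⟩ ⟨hr1, hr2⟩
      rw [← h7, sub_add_cancel]
    · rintro rfl
      exact ⟨h4, h2, h5⟩

theorem i : T_I := by
  intro ι _ G _ s ev h hs
  refine ⟨?_, ?_⟩
  · intro d hd
    rw [mem_Vn] at hd
    have h1 : ∑ c ∈ Vn ι (s + 1) with ev c = ev d, ell c =
        ∑ x : ι × Bool, if occ x d then 0 else 1 := by
      have h2 : ∀ c, ell c = ∑ x : ι × Bool, if occ x c then 1 else 0 := by
        intro c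
        rw [ell_eq, Finset.card_filter]
      simp only [h2]
      rw [Finset.sum_comm]
      refine Finset.sum_congr rfl fun x _ => ?_
      rw [← Finset.card_filter, Finset.filter_filter]
      exact count_dir h hd x
    have h2 : ell d = ∑ x : ι × Bool, if occ x d then 1 else 0 := by
      rw [ell_eq, Finset.card_filter]
    rw [h1, h2, ← Finset.sum_add_distrib]
    have h3 : ∀ x : ι × Bool, ((if occ x d then 0 else 1) + if occ x d then 1 else 0) = 1 := by
      intro x
      split_ifs <;> rfl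
    simp only [h3, Finset.sum_const, smul_eq_mul, mul_one, card_univ, Fintype.card_prod,
      Fintype.card_bool]
    ring
  · intro c hc
    rw [mem_Vn] at hc
    obtain ⟨d, ⟨hd1, hd2⟩, hd3⟩ := h (ev c)
    have h1 : nrm d = s := by
      by_contra hne
      have h2 : c ≠ d := by
        rintro rfl
        omega
      have h3 : ev (c - d) = 0 := by rw [map_sub, hd2, sub_self]
      have h4 : nrm (c - d) ≤ nrm c + nrm d := by
        have := nrm_triangle c (-d)
        rw [nrm_neg, ← sub_eq_add_neg] at this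
        exact this
      exact h2 (sub_eq_zero.1 (ker_short h h3 (by omega)))
    refine ⟨d, ⟨(mem_Vn _ _).2 h1, hd2⟩, ?_⟩
    rintro d' ⟨hd'1, hd'2⟩
    rw [mem_Vn] at hd'1
    exact hd3 d' ⟨hd'1.le, hd'2⟩

/-- the weighted double count -/
theorem double_count (s : ℕ) (w : ι → ℕ → ℕ) :
    ∑ c ∈ Vn ι (s + 1), ∑ x : ι × Bool with occ x c, w x.1 (c x.1).natAbs =
      ∑ d ∈ Vn ι s, ∑ x : ι × Bool with occ x (d + dv x), w x.1 ((d x.1).natAbs + 1) := by
  have h1 : ∀ c : ι → ℤ, ∑ x : ι × Bool with occ x c, w x.1 (c x.1).natAbs =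
      ∑ x : ι × Bool, if occ x c then w x.1 (c x.1).natAbs else 0 := by
    intro c
    rw [Finset.sum_filter]
  have h2 : ∀ d : ι → ℤ, ∑ x : ι × Bool with occ x (d + dv x), w x.1 ((d x.1).natAbs + 1) =
      ∑ x : ι × Bool, if occ x (d + dv x) then w x.1 ((d x.1).natAbs + 1) else 0 := by
    intro c
    rw [Finset.sum_filter]
  simp only [h1, h2]
  rw [Finset.sum_comm, Finset.sum_comm (s := Vn ι s)]
  refine Finset.sum_congr rfl fun x _ => ?_
  rw [← Finset.sum_filter, ← Finset.sum_filter]
  refine Finset.sum_bij' (fun c _ => c - dv x) (fun d _ => d + dv x) ?_ ?_ ?_ ?_ ?_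
  · intro c hc
    rw [mem_filter, mem_Vn] at hc ⊢
    have := nrm_sub_occ hc.2
    refine ⟨by omega, ?_⟩
    rw [sub_add_cancel]
    exact hc.2
  · intro d hd
    rw [mem_filter, mem_Vn] at hd ⊢
    have := nrm_sub_occ hd.2
    rw [add_sub_cancel_right] at this
    exact ⟨by omega, hd.2⟩
  · intro c _
    exact sub_add_cancel _ _
  · intro d _
    exact add_sub_cancel_right _ _
  · intro c hc
    rw [mem_filter] at hc
    have h3 := hc.2
    unfold occ at h3
    congr 1
    rw [Pi.sub_apply, dv_self]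
    rcases sg_eq x.2 with h4 | h4 <;> rw [h4] at h3 ⊢ <;> omega

theorem sum_occ_abs (c : ι → ℤ) :
    ∑ x : ι × Bool with occ x c, (c x.1).natAbs = nrm c := by
  rw [Finset.sum_filter, Fintype.sum_prod_type]
  unfold nrm
  refine Finset.sum_congr rfl fun i _ => ?_
  rw [Fintype.sum_bool]
  unfold occ sg
  simp only [if_true, Bool.false_eq_true, if_false]
  split_ifs <;> omega

theorem sum_nocc_abs (d : ι → ℤ) :
    ∑ x : ι × Bool with occ x (d + dv x), (d x.1).natAbs = nrm d := by
  rw [Finset.sum_filter, Fintype.sum_prod_type]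
  unfold nrm
  refine Finset.sum_congr rfl fun i _ => ?_
  rw [Fintype.sum_bool]
  have h1 : ∀ b, (d + dv (i, b)) i = d i + sg b := by
    intro b
    rw [Pi.add_apply]
    congr 1
    exact dv_self (i, b)
  unfold occ
  simp only [h1]
  unfold sg
  simp only [if_true, Bool.false_eq_true, if_false]
  split_ifs <;> omega

theorem f : T_F := by
  intro ι _ s
  have h1 := double_count (ι := ι) s (fun _ n => n)
  have h2 := double_count (ι := ι) s (fun _ _ => 1)
  have h3 : ∑ c ∈ Vn ι (s + 1), ∑ x : ι × Bool with occ x c, (c x.1).natAbs =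
      (s + 1) * #(Vn ι (s + 1)) := by
    rw [mul_comm, ← smul_eq_mul, ← Finset.sum_const]
    refine Finset.sum_congr rfl fun c hc => ?_
    rw [sum_occ_abs]
    exact (mem_Vn _ _).1 hc
  have h4 : ∑ d ∈ Vn ι s, ∑ x : ι × Bool with occ x (d + dv x), ((d x.1).natAbs + 1) =
      s * #(Vn ι s) + ∑ d ∈ Vn ι s, ∑ x : ι × Bool with occ x (d + dv x), 1 := by
    rw [mul_comm, ← smul_eq_mul, ← Finset.sum_const, ← Finset.sum_add_distrib]
    refine Finset.sum_congr rfl fun d hd => ?_
    rw [Finset.sum_add_distrib, sum_nocc_abs, (mem_Vn _ _).1 hd]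
  have h5 : ∑ c ∈ Vn ι (s + 1), ∑ x : ι × Bool with occ x c, 1 = ∑ c ∈ Vn ι (s + 1), ell c := by
    refine Finset.sum_congr rfl fun c _ => ?_
    rw [ell_eq, Finset.card_eq_sum_ones]
  rw [h3, h4, ← h2, h5] at h1
  rw [h1, add_comm]

end

end Pool.Agent.H2.GC
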