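import Pool.Agent.H2.GC.NX
import Pool.Agent.H19.GC.NP
import Pool.Agent.H59.GC.W

/-!
# Modules N5 and W3
-/

set_option autoImplicit false

open Finset Pool.Agent.H23.GW Pool.Agent.H23.GC
open scoped Classical Nat

namespace Pool.Agent.H2.GC

noncomputable section

variable {ι : Type} [Fintype ι]

/-- if the number of nonzero coordinates is additive, the supports are disjoint -/
theorem disj_of_ell {c d : ι → ℤ} (h : ell (c - d) = ell c + ell d) (x : ι) :
    c x = 0 ∨ d x = 0 := by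
  by_contra hcon
  rw [not_or] at hcon
  have h1 : #(({i | (c - d) i ≠ 0} : Finset ι)) ≤
      #(({i | c i ≠ 0} : Finset ι) ∪ ({i | d i ≠ 0} : Finset ι)) := by
    refine card_le_card fun i hi => ?_
    simp only [mem_filter, mem_univ, true_and, mem_union] at hi ⊢
    by_contra h'
    push Not at h'
    refine hi ?_
    rw [Pi.sub_apply, h'.1, h'.2, sub_zero]
  have h2 := Finset.card_union_add_card_inter ({i | c i ≠ 0} : Finset ι) ({i | d i ≠ 0} : Finset ι)
  have h3 : 0 < #(({i | c i ≠ 0} : Finset ι) ∩ ({i | d i ≠ 0} : Finset ι)) := by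
    refine Finset.card_pos.2 ⟨x, ?_⟩
    simp only [mem_inter, mem_filter, mem_univ, true_and]
    exact hcon
  unfold ell at h
  omega

/-- module N5 -/
theorem n5 (hNX : T_NX) (hL : T_L) : T_N5 := by
  obtain ⟨C, hC⟩ := hNX
  refine ⟨3 ^ 10 * |C|, ?_⟩
  intro ι _ G _ _ ev hPC hodd hm
  obtain ⟨h1, h2⟩ := hC ι G ev hPC hodd hm
  obtain ⟨-, hd⟩ := hL ι G 4 ev hPC
  have hM : (0 : ℝ) ≤ (Fintype.card ι : ℝ) ^ 2 := by positivity
  constructor
  · set T : Finset (ι → ℤ) := {v ∈ Vn ι 10 | ev v = 0 ∧ ell v ≤ 6 ∧ ¬ X2 v} with hT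
    set S : Finset ((ι → ℤ) × (ι → ℤ)) := {q ∈ Vn ι 5 ×ˢ Vn ι 5 | ev q.1 = ev q.2 ∧
      q.1 ≠ q.2 ∧ ell q.1 + ell q.2 ≤ 6 ∧ ell q.1 ≤ 4 ∧ ell q.2 ≤ 4 ∧
      ¬ (t3 q.1 ∧ t22 q.2) ∧ ¬ (t22 q.1 ∧ t3 q.2) ∧ ¬ (t1 q.1 ∧ t32 q.2) ∧
      ¬ (t32 q.1 ∧ t1 q.2)} with hSd
    have key : ∀ q ∈ S, nrm q.1 = 5 ∧ nrm q.2 = 5 ∧ nrm (q.1 - q.2) = 10 ∧
        q.1 - q.2 ∈ T := by
      intro q hq
      simp only [hSd, mem_filter, mem_product, mem_Vn] at hq
      obtain ⟨⟨a1, a2⟩, a3, a4, a5, a6, a7, a8, a9, a10, a11⟩ := hq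
      obtain ⟨b1, b2, b3⟩ := hd q.1 q.2 a4 a3
      rw [a1, a2] at b2 b3
      obtain ⟨e, he⟩ := b3
      have b4 : nrm (q.1 - q.2) = 10 := by omega
      have b5 := Pool.Agent.H19.GC.ell_sub_le q.1 q.2
      refine ⟨a1, a2, b4, ?_⟩
      rw [hT, mem_filter, mem_Vn]
      refine ⟨b4, by rw [map_sub, a3, sub_self], by omega, ?_⟩
      rintro ⟨c1, x0, c2, c3⟩
      have hadd : ell (q.1 - q.2) = ell q.1 + ell q.2 := by omega
      have hle1 : ∀ x, (q.1 x).natAbs ≤ ((q.1 - q.2) x).natAbs :=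
        Pool.Agent.H19.GC.abs_le_of_conformal (by rw [b4, a1, a2])
      have hle2 : ∀ x, (q.2 x).natAbs ≤ ((q.1 - q.2) x).natAbs := by
        intro x
        rcases disj_of_ell hadd x with h | h
        · rw [Pi.sub_apply, h, zero_sub, Int.natAbs_neg]
        · rw [h]
          simp
      have hv3 : ∀ x, ((q.1 - q.2) x).natAbs ≤ 3 := by
        intro x
        by_cases hx : x = x0
        · rw [hx]
          exact c2.le
        · exact (c3 x hx).trans (by norm_num)
      have hcases : (ell q.1 = 2 ∧ ell q.2 = 4) ∨ (ell q.1 = 4 ∧ ell q.2 = 2) ∨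
          (ell q.1 = 3 ∧ ell q.2 = 3) := by omega
      rcases hcases with ⟨d1, d2⟩ | ⟨d1, d2⟩ | ⟨d1, d2⟩
      · exact a11 ⟨⟨d1, fun x => (hle1 x).trans (hv3 x)⟩, d2⟩
      · exact a10 ⟨d1, ⟨d2, fun x => (hle2 x).trans (hv3 x)⟩⟩
      · rw [Pi.sub_apply] at c2
        rcases disj_of_ell hadd x0 with h | h
        · -- `q.2` carries the entry three
          rw [h, zero_sub, Int.natAbs_neg] at c2
          refine a9 ⟨⟨d1, fun x => ?_⟩, ⟨d2, x0, c2.ge⟩⟩
          by_cases hx : x = x0
          · rw [hx, h]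
            simp
          · exact (hle1 x).trans (c3 x hx)
        · rw [h, sub_zero] at c2
          refine a8 ⟨⟨d1, x0, c2.ge⟩, ⟨d2, fun x => ?_⟩⟩
          by_cases hx : x = x0
          · rw [hx, h]
            simp
          · exact (hle2 x).trans (c3 x hx)
    have h3 : #S ≤ 3 ^ 10 * #T := by
      refine Pool.Agent.H19.GC.pair_count 10 S T (fun v hv => ?_) (fun q hq => ?_)
        (fun q hq => ?_)
      · rw [hT, mem_filter, mem_Vn] at hv
        exact hv.1
      · exact (key q hq).2.2.2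
      · obtain ⟨b1, b2, b3, -⟩ := key q hq
        omega
    calc (#S : ℝ) ≤ 3 ^ 10 * (#T : ℝ) := by exact_mod_cast h3
      _ ≤ 3 ^ 10 * (|C| * (Fintype.card ι : ℝ) ^ 2) := by
          refine mul_le_mul_of_nonneg_left ?_ (by positivity)
          exact h1.trans (mul_le_mul_of_nonneg_right (le_abs_self _) hM)
      _ = _ := by ring
  · set T : Finset (ι → ℤ) := {v ∈ Vn ι 9 | ev v = 0 ∧ ell v ≤ 6 ∧ ¬ X1 v} with hT
    set S : Finset ((ι → ℤ) × (ι → ℤ)) := {q ∈ Vn ι 4 ×ˢ Vn ι 5 | ev q.1 = ev q.2 ∧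
      ell q.1 + ell q.2 ≤ 6 ∧ ell q.1 ≤ 3 ∧ ell q.2 ≤ 4 ∧ ¬ (e1 q.1 ∧ t22 q.2) ∧
      ¬ (e22 q.1 ∧ t1 q.2)} with hSd
    have key : ∀ q ∈ S, nrm q.1 = 4 ∧ nrm q.2 = 5 ∧ nrm (q.1 - q.2) = 9 ∧
        q.1 - q.2 ∈ T := by
      intro q hq
      simp only [hSd, mem_filter, mem_product, mem_Vn] at hq
      obtain ⟨⟨a1, a2⟩, a3, a5, a6, a7, a8, a9⟩ := hq
      have a4 : q.1 ≠ q.2 := by
        intro h
        rw [h] at a1
        omega
      obtain ⟨b1, b2, b3⟩ := hd q.1 q.2 a4 a3
      rw [a1, a2] at b2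
      have b4 : nrm (q.1 - q.2) = 9 := by omega
      have b5 := Pool.Agent.H19.GC.ell_sub_le q.1 q.2
      refine ⟨a1, a2, b4, ?_⟩
      rw [hT, mem_filter, mem_Vn]
      refine ⟨b4, by rw [map_sub, a3, sub_self], by omega, ?_⟩
      rintro ⟨c1, c3⟩
      have hadd : ell (q.1 - q.2) = ell q.1 + ell q.2 := by omega
      have hle1 : ∀ x, (q.1 x).natAbs ≤ ((q.1 - q.2) x).natAbs :=
        Pool.Agent.H19.GC.abs_le_of_conformal (by rw [b4, a1, a2])
      have hle2 : ∀ x, (q.2 x).natAbs ≤ ((q.1 - q.2) x).natAbs := by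
        intro x
        rcases disj_of_ell hadd x with h | h
        · rw [Pi.sub_apply, h, zero_sub, Int.natAbs_neg]
        · rw [h]
          simp
      have hcases : (ell q.1 = 2 ∧ ell q.2 = 4) ∨ (ell q.1 = 3 ∧ ell q.2 = 3) := by omega
      rcases hcases with ⟨d1, d2⟩ | ⟨d1, d2⟩
      · exact a9 ⟨⟨d1, fun x => (hle1 x).trans (c3 x)⟩, d2⟩
      · exact a8 ⟨d1, ⟨d2, fun x => (hle2 x).trans (c3 x)⟩⟩
    have h3 : #S ≤ 3 ^ 9 * #T := by
      refine Pool.Agent.H19.GC.pair_count 9 S T (fun v hv => ?_) (fun q hq => ?_)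
        (fun q hq => ?_)
      · rw [hT, mem_filter, mem_Vn] at hv
        exact hv.1
      · exact (key q hq).2.2.2
      · obtain ⟨b1, b2, b3, -⟩ := key q hq
        omega
    calc (#S : ℝ) ≤ 3 ^ 9 * (#T : ℝ) := by exact_mod_cast h3
      _ ≤ 3 ^ 10 * (#T : ℝ) := by
          refine mul_le_mul_of_nonneg_right (by norm_num) (by positivity)
      _ ≤ 3 ^ 10 * (|C| * (Fintype.card ι : ℝ) ^ 2) := by
          refine mul_le_mul_of_nonneg_left ?_ (by positivity)
          exact h2.trans (mul_le_mul_of_nonneg_right (le_abs_self _) hM)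
      _ = _ := by ring

open Pool.Agent.H59.GC (cnt mu vs_iff sum_mu mu_dir mu_other dir)

/-- the two directions of a vector of type `(3, 2)` -/
theorem t32_dirs {v : ι → ℤ} (hn : nrm v = 5) (ht : t32 v) :
    ∃ X Y : ι × Bool, X ≠ Y ∧ mu v X = 3 ∧ mu v Y = 2 ∧ ∀ z, z ≠ X → z ≠ Y → mu v z = 0 := by
  obtain ⟨h2, h3⟩ := ht
  unfold ell at h2
  obtain ⟨x, y, hxy, hS⟩ := Finset.card_eq_two.1 h2
  have hzero : ∀ z, z ≠ x → z ≠ y → v z = 0 := by
    intro z hz1 hz2
    by_contra h
    have : z ∈ ({i | v i ≠ 0} : Finset ι) := by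
      rw [mem_filter]
      exact ⟨mem_univ _, h⟩
    rw [hS, mem_insert, mem_singleton] at this
    rcases this with h' | h'
    · exact hz1 h'
    · exact hz2 h'
  have hsum : (v x).natAbs + (v y).natAbs = 5 := by
    rw [← hn]
    unfold nrm
    rw [← Finset.sum_pair (f := fun i => (v i).natAbs) hxy]
    refine Finset.sum_subset (Finset.subset_univ _) ?_
    intro z _ hz
    rw [mem_insert, mem_singleton, not_or] at hz
    rw [hzero z hz.1 hz.2, Int.natAbs_zero]
  have hmain : ∀ a b : ι, a ≠ b → (∀ z, z ≠ a → z ≠ b → v z = 0) → (v a).natAbs = 3 →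
      (v b).natAbs = 2 → ∃ X Y : ι × Bool, X ≠ Y ∧ mu v X = 3 ∧ mu v Y = 2 ∧
        ∀ z, z ≠ X → z ≠ Y → mu v z = 0 := by
    intro a b hab hz ha hb
    refine ⟨dir v a, dir v b, ?_, ?_, ?_, ?_⟩
    · intro h
      exact hab (congrArg Prod.fst h)
    · rw [mu_dir, ha]
    · rw [mu_dir, hb]
    · intro z hz1 hz2
      by_cases h1 : z.1 = a
      · exact mu_other v a z h1 hz1
      · by_cases h2 : z.1 = b
        · exact mu_other v b z h2 hz2
        · unfold mu
          rw [hz z.1 h1 h2]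
          simp
  have hx3 := h3 x
  have hy3 := h3 y
  have hcase : ((v x).natAbs = 3 ∧ (v y).natAbs = 2) ∨ ((v y).natAbs = 3 ∧ (v x).natAbs = 2) := by
    omega
  rcases hcase with ⟨h4, h5⟩ | ⟨h4, h5⟩
  · exact hmain x y hxy hzero h4 h5
  · exact hmain y x hxy.symm (fun z h6 h7 => hzero z h7 h6) h4 h5

theorem card_filter_congr' {α : Type} [Fintype α] (p q : α → Prop) (ip : DecidablePred p)
    (iq : DecidablePred q) (h : ∀ a, p a ↔ q a) : (univ.filter p).card = (univ.filter q).card := by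
  congr 1
  ext a
  simp only [mem_filter, mem_univ, true_and, h a]

theorem cnt_eq_zero {D κ : Type} [Fintype κ] (w : κ → D) (x : D) :
    cnt w x = 0 ↔ ∀ k, w k ≠ x := by
  unfold cnt
  rw [Finset.card_eq_zero]
  constructor
  · intro h k hk
    have h1 := Finset.eq_empty_iff_forall_notMem.1 h k
    rw [mem_filter] at h1
    exact h1 ⟨mem_univ _, hk⟩
  · intro h
    refine Finset.eq_empty_iff_forall_notMem.2 fun k hk => ?_
    rw [mem_filter] at hk
    exact h k hk.2

/-- the words of a vector of type `(3, 2)` as binary sequences -/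
theorem card_words32 {κ : Type} [Fintype κ] (e : Fin 5 ≃ κ) {v : ι → ℤ}
    (hn : nrm v = 5) (ht : t32 v) (P : (κ → ι × Bool) → Prop) (Q : (Fin 5 → Bool) → Prop)
    [DecidablePred Q]
    (hPQ : ∀ (X Y : ι × Bool) (b : Fin 5 → Bool), X ≠ Y →
      (P (fun k => if b (e.symm k) = true then X else Y) ↔ Q b)) :
    #{w : κ → ι × Bool | vs w = v ∧ P w} =
      #{b : Fin 5 → Bool | #{t | b t = true} = 3 ∧ Q b} := by
  obtain ⟨X, Y, hXY, hX, hY, hZ⟩ := t32_dirs hn ht
  have hcard : nrm v = Fintype.card κ := by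
    rw [hn, ← Fintype.card_congr e, Fintype.card_fin]
  symm
  refine Finset.card_bij' (fun b _ => fun k => if b (e.symm k) = true then X else Y)
    (fun w _ => fun t => decide (w (e t) = X)) ?_ ?_ ?_ ?_
  · intro b hb
    simp only [mem_filter, mem_univ, true_and] at hb ⊢
    refine ⟨?_, (hPQ X Y b hXY).2 hb.2⟩
    rw [vs_iff hcard]
    intro x
    have hc3 : #{k : κ | b (e.symm k) = true} = 3 := by
      rw [← hb.1]
      refine Finset.card_bij' (fun k _ => e.symm k) (fun t _ => e t) ?_ ?_ ?_ ?_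
      · intro k hk
        simpa using hk
      · intro t ht
        simpa using ht
      · intro k _
        simp
      · intro t _
        simp
    have hc5 := Finset.card_filter_add_card_filter_not (s := (univ : Finset κ))
      (fun k => b (e.symm k) = true)
    rw [card_univ, ← hcard, hn] at hc5
    have hWX : ∀ k, (if b (e.symm k) = true then X else Y) = X ↔ b (e.symm k) = true := by
      intro k
      cases b (e.symm k) <;> simp [Ne.symm hXY]
    have hWY : ∀ k, (if b (e.symm k) = true then X else Y) = Y ↔ ¬ b (e.symm k) = true := by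
      intro k
      cases b (e.symm k) <;> simp [hXY]
    by_cases h1 : x = X
    · rw [h1, hX, ← hc3]
      exact card_filter_congr' _ _ _ _ hWX
    · by_cases h2 : x = Y
      · rw [h2, hY]
        have h3 : cnt (fun k => if b (e.symm k) = true then X else Y) Y =
            #{k : κ | ¬ b (e.symm k) = true} := card_filter_congr' _ _ _ _ hWY
        rw [h3]
        omega
      · rw [hZ x h1 h2, cnt_eq_zero]
        intro k hk
        by_cases hb' : b (e.symm k) = true
        · exact h1 (hk.symm.trans ((hWX k).2 hb'))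
        · exact h2 (hk.symm.trans ((hWY k).2 hb'))
  · intro w hw
    simp only [mem_filter, mem_univ, true_and] at hw ⊢
    have hcw := (vs_iff hcard w).1 hw.1
    have hval : ∀ k, w k = X ∨ w k = Y := by
      intro k
      by_contra h
      rw [not_or] at h
      have h1 := hcw (w k)
      rw [hZ (w k) h.1 h.2, cnt_eq_zero] at h1
      exact h1 k rfl
    have hww : (fun k => if (decide (w (e (e.symm k)) = X)) = true then X else Y) = w := by
      funext k
      simp only [Equiv.apply_symm_apply, decide_eq_true_eq]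
      split_ifs with h1
      · exact h1.symm
      · rcases hval k with h2 | h2
        · exact absurd h2 h1
        · exact h2.symm
    refine ⟨?_, ?_⟩
    · have h1 := hcw X
      rw [hX] at h1
      rw [← h1]
      unfold cnt
      refine Finset.card_bij' (fun t _ => e t) (fun k _ => e.symm k) ?_ ?_ ?_ ?_
      · intro t ht
        simpa using ht
      · intro k hk
        simpa using hk
      · intro t _
        simp
      · intro k _
        simp
    · rw [← hPQ X Y _ hXY, hww]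
      exact hw.2
  · intro b _
    funext t
    simp only [Equiv.symm_apply_apply]
    cases hb : b t
    · simp [Ne.symm hXY]
    · simp
  · intro w hw
    simp only [mem_filter, mem_univ, true_and] at hw
    have hcw := (vs_iff hcard w).1 hw.1
    funext k
    simp only [Equiv.apply_symm_apply, decide_eq_true_eq]
    split_ifs with h1
    · exact h1.symm
    · by_contra h2
      have h3 := hcw (w k)
      rw [hZ (w k) h1 (Ne.symm h2), cnt_eq_zero] at h3
      exact h3 k rfl

/-- module W3 -/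
theorem w3 : T_W3 := by
  intro ι _ κ _ hκ v hn ht i j k l p hnd
  set g : Fin 5 → κ := ![i, j, k, l, p] with hg
  have hinj : Function.Injective g := by
    have h1 : (List.ofFn g).Nodup := by
      have : List.ofFn g = [i, j, k, l, p] := by
        simp [hg, List.ofFn_succ]
      rw [this]
      exact hnd
    exact List.nodup_ofFn.1 h1
  have hbij : Function.Bijective g :=
    (Fintype.bijective_iff_injective_and_card g).2 ⟨hinj, by rw [hκ, Fintype.card_fin]⟩
  set e : Fin 5 ≃ κ := Equiv.ofBijective g hbij with he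
  have e0 : e.symm i = 0 := by
    rw [Equiv.symm_apply_eq]; rfl
  have e1' : e.symm j = 1 := by
    rw [Equiv.symm_apply_eq]; rfl
  have e2 : e.symm k = 2 := by
    rw [Equiv.symm_apply_eq]; rfl
  have e3 : e.symm l = 3 := by
    rw [Equiv.symm_apply_eq]; rfl
  have e4 : e.symm p = 4 := by
    rw [Equiv.symm_apply_eq]; rfl
  have hif : ∀ (X Y : ι × Bool) (a b : Bool), X ≠ Y →
      ((if a = true then X else Y) = (if b = true then X else Y) ↔ a = b) := by
    intro X Y a b hXY
    cases a <;> cases b <;> simp [hXY, Ne.symm hXY]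
  refine ⟨?_, ?_, ?_, ?_⟩
  · refine (card_filter_congr' _ _ _ _ fun w => Iff.rfl).trans
      ((card_words32 e hn ht (fun w => w i = w j) (fun b => b 0 = b 1) ?_).trans (by decide))
    intro X Y b hXY
    simp only [e0, e1']
    exact hif X Y _ _ hXY
  · refine (card_filter_congr' _ _ _ _ fun w => Iff.rfl).trans
      ((card_words32 e hn ht (fun w => w i = w j ∧ w k = w l) (fun b => b 0 = b 1 ∧ b 2 = b 3)
        ?_).trans (by decide))
    intro X Y b hXY
    simp only [e0, e1', e2, e3]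
    rw [hif X Y _ _ hXY, hif X Y _ _ hXY]
  · refine (card_filter_congr' _ _ _ _ fun w => Iff.rfl).trans
      ((card_words32 e hn ht (fun w => w i = w j ∧ w j = w k) (fun b => b 0 = b 1 ∧ b 1 = b 2)
        ?_).trans (by decide))
    intro X Y b hXY
    simp only [e0, e1', e2]
    rw [hif X Y _ _ hXY, hif X Y _ _ hXY]
  · refine (card_filter_congr' _ _ _ _ fun w => Iff.rfl).trans
      ((card_words32 e hn ht (fun w => w i = w j ∧ w j = w k ∧ w l = w p)
        (fun b => b 0 = b 1 ∧ b 1 = b 2 ∧ b 3 = b 4) ?_).trans (by decide))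
    intro X Y b hXY
    simp only [e0, e1', e2, e3, e4]
    rw [hif X Y _ _ hXY, hif X Y _ _ hXY, hif X Y _ _ hXY]

end

end Pool.Agent.H2.GC
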