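import Pool.Agent.H2.GC.Base
import Pool.Agent.H23.GC.Targets3

/-!
# Module NX: kernel vectors with many defects, radius four
-/

set_option autoImplicit false

open Finset Pool.Agent.H23.GW Pool.Agent.H23.GC
open scoped Classical Nat

namespace Pool.Agent.H2.GC

noncomputable section

variable {ι : Type} [Fintype ι]

theorem ell_le_of_conformal {w a c : ι → ℤ} (h : w = a + c) (hn : nrm w = nrm a + nrm c) :
    ell a ≤ ell w := by
  have h1 : ∑ i, (w i).natAbs = ∑ i, ((a i).natAbs + (c i).natAbs) := by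
    rw [sum_add_distrib]
    exact hn
  have h2 : ∀ i ∈ (univ : Finset ι), (w i).natAbs ≤ (a i).natAbs + (c i).natAbs := by
    intro i _
    rw [h, Pi.add_apply]
    omega
  have h3 := (sum_eq_sum_iff_of_le h2).1 h1
  unfold ell
  refine card_le_card fun i hi => ?_
  rw [mem_filter] at hi ⊢
  refine ⟨mem_univ _, fun h0 => hi.2 ?_⟩
  have h4 := h3 i (mem_univ i)
  rw [h0] at h4
  simp only [Int.natAbs_zero] at h4
  omega

/-- restriction of a vector to a set of coordinates -/
def restr (S : Finset ι) (v : ι → ℤ) : ι → ℤ := fun i => if i ∈ S then v i else 0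

theorem nrm_restr (S : Finset ι) (v : ι → ℤ) : nrm (restr S v) = ∑ i ∈ S, (v i).natAbs := by
  unfold nrm restr
  rw [← Finset.sum_filter_add_sum_filter_not univ (fun i => i ∈ S)]
  have h1 : ∑ i with ¬ i ∈ S, (if i ∈ S then v i else 0).natAbs = 0 := by
    refine Finset.sum_eq_zero fun i hi => ?_
    rw [mem_filter] at hi
    rw [if_neg hi.2, Int.natAbs_zero]
  rw [h1, add_zero]
  have h2 : (univ.filter fun i => i ∈ S) = S := by
    ext i
    simp
  rw [h2]
  refine Finset.sum_congr rfl fun i hi => ?_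
  rw [if_pos hi]

theorem ell_restr (S : Finset ι) (v : ι → ℤ) : ell (restr S v) ≤ #S := by
  unfold ell restr
  refine card_le_card fun i hi => ?_
  rw [mem_filter] at hi
  by_contra h
  exact hi.2 (if_neg h)

theorem nrm_sub_restr (S : Finset ι) (v : ι → ℤ) :
    nrm (v - restr S v) + nrm (restr S v) = nrm v := by
  unfold nrm restr
  rw [← Finset.sum_add_distrib]
  refine Finset.sum_congr rfl fun i _ => ?_
  rw [Pi.sub_apply]
  split_ifs <;> simp

/-- a sub-vector concentrated on few coordinates -/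
theorem exists_conc {v : ι → ℤ} {S : Finset ι} {t k : ℕ} (hS : #S ≤ k)
    (ht : t ≤ ∑ i ∈ S, (v i).natAbs) :
    ∃ a b : ι → ℤ, v = a + b ∧ nrm a = t ∧ ell a ≤ k ∧ nrm b + t ≤ nrm v := by
  rw [← nrm_restr] at ht
  obtain ⟨a, c, h1, h2, h3⟩ := exists_split (nrm (restr S v) - t) (restr S v) t (by omega)
  have h4 := nrm_sub_restr S v
  refine ⟨a, (v - restr S v) + c, ?_, h2, ?_, ?_⟩
  · rw [add_comm (v - restr S v) c, ← add_assoc, ← h1, add_comm, sub_add_cancel]
  · exact (ell_le_of_conformal h1 (by omega)).trans ((ell_restr S v).trans hS)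
  · have := nrm_triangle (v - restr S v) c
    omega

/-- the half of a vector -/
def half (v : ι → ℤ) : ι → ℤ := fun i => (v i).tdiv 2

theorem nrm_half (v : ι → ℤ) : nrm (half v) = ∑ i, (v i).natAbs / 2 := by
  unfold nrm half
  refine Finset.sum_congr rfl fun i _ => ?_
  rw [Int.natAbs_tdiv]
  rfl

theorem nrm_two_smul (v : ι → ℤ) : nrm (2 • v) = 2 * nrm v := by
  unfold nrm
  rw [Finset.mul_sum]
  refine Finset.sum_congr rfl fun i _ => ?_
  rw [Pi.smul_apply]
  simp [Int.natAbs_mul]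

theorem nrm_sub_half (v : ι → ℤ) : nrm (v - 2 • half v) + 2 * nrm (half v) = nrm v := by
  rw [nrm_half, Finset.mul_sum]
  unfold nrm half
  rw [← Finset.sum_add_distrib]
  refine Finset.sum_congr rfl fun i _ => ?_
  rw [Pi.sub_apply, Pi.smul_apply]
  have h1 : (2 : ℕ) • (v i).tdiv 2 = 2 * (v i).tdiv 2 := by simp
  rw [h1]
  have h2 := Int.mul_tdiv_add_tmod (v i) 2
  have h3 : v i - 2 * (v i).tdiv 2 = (v i).tmod 2 := by omega
  rw [h3, Int.natAbs_tmod]
  have h4 : (2 : ℤ).natAbs = 2 := rfl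
  rw [h4]
  omega

/-- two times a vector plus a small vector -/
theorem exists_double {v : ι → ℤ} {s : ℕ} (h : s ≤ ∑ i, (v i).natAbs / 2) :
    ∃ b r : ι → ℤ, v = 2 • b + r ∧ nrm b = s ∧ nrm r + 2 * s ≤ nrm v := by
  rw [← nrm_half] at h
  obtain ⟨b, c, h1, h2, h3⟩ := exists_split (nrm (half v) - s) (half v) s (by omega)
  have h4 := nrm_sub_half v
  refine ⟨b, (v - 2 • half v) + 2 • c, ?_, h2, ?_⟩
  · have h5 : 2 • half v = 2 • b + 2 • c := by
      conv_lhs => rw [h1]
      rw [nsmul_add]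
    have h6 : 2 • b + (v - 2 • half v + 2 • c) = v - 2 • half v + (2 • b + 2 • c) := by
      abel
    rw [h6, ← h5, sub_add_cancel]
  · have h5 := nrm_triangle (v - 2 • half v) (2 • c)
    rw [nrm_two_smul] at h5
    omega

/-- the numerical lemma -/
theorem types (v : ι → ℤ) (N : ℕ) (h : (N = 10 ∧ ¬ X2 v) ∨ (N = 9 ∧ ¬ X1 v)) (hn : nrm v = N)
    (he : ell v ≤ 6) :
    (∃ S : Finset ι, #S ≤ 2 ∧ N - 4 ≤ ∑ i ∈ S, (v i).natAbs) ∨
      4 ≤ ∑ i, (v i).natAbs / 2 := by
  by_contra hcon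
  rw [not_or, not_exists, not_le] at hcon
  obtain ⟨h1, h2⟩ := hcon
  have h1' : ∀ x y, x ≠ y → (v x).natAbs + (v y).natAbs < N - 4 := by
    intro x y hxy
    have := h1 {x, y}
    rw [not_and, not_le, Finset.sum_pair hxy] at this
    exact this (card_le_two)
  have h1s : ∀ x, (v x).natAbs < N - 4 := by
    intro x
    have := h1 {x}
    rw [not_and, not_le, Finset.sum_singleton] at this
    exact this (by rw [card_singleton]; norm_num)
  -- decomposition of the norm
  have hsum : N = ell v + ∑ i, (v i).natAbs / 2 +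
      ∑ i, ((v i).natAbs - (if v i ≠ 0 then 1 else 0) - (v i).natAbs / 2) := by
    rw [← hn]
    unfold nrm ell
    rw [Finset.card_filter, ← Finset.sum_add_distrib, ← Finset.sum_add_distrib]
    refine Finset.sum_congr rfl fun i _ => ?_
    split_ifs with h3
    · omega
    · have : v i = 0 := by
        by_contra h4
        exact h3 h4
      rw [this]
      rfl
  have hN : N = 10 ∨ N = 9 := by
    rcases h with h | h
    · exact Or.inl h.1
    · exact Or.inr h.1
  by_cases hbig : ∃ x, 3 ≤ (v x).natAbs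
  · obtain ⟨x, hx⟩ := hbig
    have hothers : ∀ y, y ≠ x → (v y).natAbs ≤ 2 := by
      intro y hy
      have := h1' x y (Ne.symm hy)
      omega
    have he0 : ∑ i, ((v i).natAbs - (if v i ≠ 0 then 1 else 0) - (v i).natAbs / 2) =
        (v x).natAbs - 1 - (v x).natAbs / 2 := by
      rw [← Finset.add_sum_erase _ _ (mem_univ x)]
      have h3 : ∑ i ∈ univ.erase x,
          ((v i).natAbs - (if v i ≠ 0 then 1 else 0) - (v i).natAbs / 2) = 0 := by
        refine Finset.sum_eq_zero fun i hi => ?_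
        have h4 := hothers i (ne_of_mem_erase hi)
        split_ifs with h5
        · omega
        · have : v i = 0 := by
            by_contra h6
            exact h5 h6
          rw [this]
          rfl
      rw [h3, add_zero, if_pos]
      intro h4
      rw [h4] at hx
      simp at hx
    rw [he0] at hsum
    have hxs := h1s x
    by_cases hx3 : (v x).natAbs = 3
    · rcases h with ⟨h10, hX⟩ | ⟨h9, hX⟩
      · -- type X2
        refine hX ⟨by omega, x, hx3, hothers⟩
      · -- all others at most one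
        have hle : ∀ y, y ≠ x → (v y).natAbs ≤ 1 := by
          intro y hy
          have := h1' x y (Ne.symm hy)
          omega
        have hfl : ∑ i, (v i).natAbs / 2 = 1 := by
          rw [← Finset.add_sum_erase _ _ (mem_univ x)]
          have h3 : ∑ i ∈ univ.erase x, (v i).natAbs / 2 = 0 := by
            refine Finset.sum_eq_zero fun i hi => ?_
            have := hle i (ne_of_mem_erase hi)
            omega
          rw [h3, add_zero, hx3]
        rw [hfl, hx3] at hsum
        omega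
    · by_cases hx4 : (v x).natAbs = 4
      · have hle : ∀ y, y ≠ x → (v y).natAbs ≤ 1 := by
          intro y hy
          have := h1' x y (Ne.symm hy)
          omega
        have hfl : ∑ i, (v i).natAbs / 2 = 2 := by
          rw [← Finset.add_sum_erase _ _ (mem_univ x)]
          have h3 : ∑ i ∈ univ.erase x, (v i).natAbs / 2 = 0 := by
            refine Finset.sum_eq_zero fun i hi => ?_
            have := hle i (ne_of_mem_erase hi)
            omega
          rw [h3, add_zero, hx4]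
        rw [hfl, hx4] at hsum
        rcases hN with hN | hN
        · omega
        · -- N = 9: the others vanish
          have hz : ∀ y, y ≠ x → (v y).natAbs = 0 := by
            intro y hy
            have := h1' x y (Ne.symm hy)
            omega
          have h5 : nrm v = 4 := by
            unfold nrm
            rw [← Finset.add_sum_erase _ _ (mem_univ x)]
            have h3 : ∑ i ∈ univ.erase x, (v i).natAbs = 0 :=
              Finset.sum_eq_zero fun i hi => hz i (ne_of_mem_erase hi)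
            rw [h3, add_zero, hx4]
          omega
      · -- at least five
        have hx5 : (v x).natAbs = 5 := by omega
        have hz : ∀ y, y ≠ x → (v y).natAbs = 0 := by
          intro y hy
          have := h1' x y (Ne.symm hy)
          omega
        have h5 : nrm v = 5 := by
          unfold nrm
          rw [← Finset.add_sum_erase _ _ (mem_univ x)]
          have h3 : ∑ i ∈ univ.erase x, (v i).natAbs = 0 :=
            Finset.sum_eq_zero fun i hi => hz i (ne_of_mem_erase hi)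
          rw [h3, add_zero, hx5]
        omega
  · rw [not_exists] at hbig
    have he0 : ∑ i, ((v i).natAbs - (if v i ≠ 0 then 1 else 0) - (v i).natAbs / 2) = 0 := by
      refine Finset.sum_eq_zero fun i _ => ?_
      have := hbig i
      split_ifs with h5
      · omega
      · have : v i = 0 := by
          by_contra h6
          exact h5 h6
        rw [this]
        rfl
    rw [he0, add_zero] at hsum
    rcases h with ⟨h10, hX⟩ | ⟨h9, hX⟩
    · omega
    · refine hX ⟨by omega, fun y => ?_⟩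
      have := hbig y
      omega

theorem two_inj {G : Type} [AddCommGroup G] [Fintype G] (h : Odd (Fintype.card G)) {g g' : G}
    (hg : 2 • g = 2 • g') : g = g' := by
  have h1 : 2 • (g - g') = 0 := by rw [nsmul_sub, hg, sub_self]
  have h2 : addOrderOf (g - g') ∣ 2 := addOrderOf_dvd_of_nsmul_eq_zero h1
  have h3 : addOrderOf (g - g') ∣ Fintype.card G := addOrderOf_dvd_card
  have h4 : addOrderOf (g - g') ∣ Nat.gcd 2 (Fintype.card G) := Nat.dvd_gcd h2 h3
  have h5 : Nat.gcd 2 (Fintype.card G) = 1 := by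
    rw [← Nat.coprime_iff_gcd_eq_one]
    exact (Nat.coprime_two_left).2 h
  rw [h5, Nat.dvd_one, AddMonoid.addOrderOf_eq_one_iff] at h4
  exact sub_eq_zero.1 h4

theorem ell_le_nrm' (v : ι → ℤ) : ell v ≤ nrm v := by
  unfold ell nrm
  rw [Finset.card_filter]
  refine Finset.sum_le_sum fun i _ => ?_
  split_ifs <;> omega

/-- the counting lemma -/
theorem count_nx {G : Type} [AddCommGroup G] [Fintype G] {ev : (ι → ℤ) →+ G} (hPC : PC 4 ev)
    (hodd : Odd (Fintype.card G)) (N : ℕ) (hN : 8 ≤ N) (hN' : N ≤ 10) (T : Finset (ι → ℤ))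
    (hT : ∀ v ∈ T, nrm v = N ∧ ev v = 0 ∧
      ((∃ S : Finset ι, #S ≤ 2 ∧ N - 4 ≤ ∑ i ∈ S, (v i).natAbs) ∨
      4 ≤ ∑ i, (v i).natAbs / 2)) :
    #T ≤ #{a ∈ Vn ι (N - 4) | ell a ≤ 2} +
      (#{a ∈ Vn ι 0 | ell a ≤ 2} + #{a ∈ Vn ι 1 | ell a ≤ 2} + #{a ∈ Vn ι 2 | ell a ≤ 2}) := by
  choose r hr using fun g : G => (hPC g).exists
  have hdbl : ∀ a : ι → ℤ, ∃ g : G, (∃ b : ι → ℤ, 2 • ev b + ev a = 0) → 2 • g + ev a = 0 := by
    intro a
    by_cases h : ∃ b : ι → ℤ, 2 • ev b + ev a = 0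
    · obtain ⟨b, hb⟩ := h
      exact ⟨ev b, fun _ => hb⟩
    · exact ⟨0, fun h' => absurd h' h⟩
  choose hf hhf using hdbl
  set F1 := ({a ∈ Vn ι (N - 4) | ell a ≤ 2}).image fun a => a - r (ev a) with hF1
  set E2 := {a ∈ Vn ι 0 | ell a ≤ 2} ∪ {a ∈ Vn ι 1 | ell a ≤ 2} ∪ {a ∈ Vn ι 2 | ell a ≤ 2}
    with hE2
  set F2 := E2.image fun a => 2 • r (hf a) + a with hF2
  have hsub : T ⊆ F1 ∪ F2 := by
    intro v hv
    obtain ⟨hn, he, hp⟩ := hT v hv
    rcases hp with ⟨S, hS1, hS2⟩ | h2
    · refine mem_union_left _ ?_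
      obtain ⟨a, b, h3, h4, h5, h6⟩ := exists_conc hS1 hS2
      rw [hF1, mem_image]
      refine ⟨a, ?_, ?_⟩
      · simp only [mem_filter, mem_Vn]
        exact ⟨h4, h5⟩
      · have h7 : r (ev a) = -b := by
          refine (hPC (ev a)).unique (hr (ev a)) ⟨?_, ?_⟩
          · rw [nrm_neg]
            omega
          · rw [h3, map_add] at he
            rw [map_neg]
            exact (eq_neg_of_add_eq_zero_left he).symm
        rw [h7, h3, sub_neg_eq_add]
    · refine mem_union_right _ ?_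
      obtain ⟨b, a, h3, h4, h5⟩ := exists_double h2
      rw [hF2, mem_image]
      have hna : nrm a ≤ 2 := by omega
      refine ⟨a, ?_, ?_⟩
      · have := ell_le_nrm' a
        rw [hE2]
        simp only [mem_union, mem_filter, mem_Vn]
        omega
      · have h6 : 2 • ev b + ev a = 0 := by
          rw [← map_nsmul, ← map_add, ← h3]
          exact he
        have h7 := hhf a ⟨b, h6⟩
        have h8 : hf a = ev b := by
          refine two_inj hodd ?_
          rw [← h6] at h7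
          exact add_right_cancel h7
        have h9 : r (hf a) = b :=
          (hPC (hf a)).unique (hr (hf a)) ⟨h4.le, h8.symm⟩
        rw [h9, h3]
  refine (card_le_card hsub).trans ((card_union_le _ _).trans ?_)
  refine Nat.add_le_add card_image_le (card_image_le.trans ?_)
  rw [hE2]
  refine (card_union_le _ _).trans (Nat.add_le_add_right (card_union_le _ _) _)

/-- module NX -/
theorem nx (hC : T_C) : T_NX := by
  obtain ⟨C6, h6⟩ := hC.2.2 6 2
  obtain ⟨C5, h5⟩ := hC.2.2 5 2
  obtain ⟨C0, h0⟩ := hC.2.2 0 2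
  obtain ⟨C1, h1⟩ := hC.2.2 1 2
  obtain ⟨C2, h2⟩ := hC.2.2 2 2
  refine ⟨|C6| + |C5| + (|C0| + |C1| + |C2|), ?_⟩
  intro ι _ G _ _ ev hPC hodd hm
  have hM : (0 : ℝ) ≤ (Fintype.card ι : ℝ) ^ 2 := by positivity
  have hb : ∀ (C x : ℝ), x ≤ C * (Fintype.card ι : ℝ) ^ 2 → x ≤ |C| * (Fintype.card ι : ℝ) ^ 2 :=
    fun C x h => h.trans (mul_le_mul_of_nonneg_right (le_abs_self _) hM)
  have k6 := hb _ _ (h6 ι hm)
  have k5 := hb _ _ (h5 ι hm)
  have k0 := hb _ _ (h0 ι hm)
  have k1 := hb _ _ (h1 ι hm)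
  have k2 := hb _ _ (h2 ι hm)
  have n6 : 0 ≤ |C6| * (Fintype.card ι : ℝ) ^ 2 := by positivity
  have n5 : 0 ≤ |C5| * (Fintype.card ι : ℝ) ^ 2 := by positivity
  constructor
  · have h := count_nx hPC hodd 10 (by norm_num) (by norm_num)
      {v ∈ Vn ι 10 | ev v = 0 ∧ ell v ≤ 6 ∧ ¬ X2 v} (fun v hv => by
        rw [mem_filter, mem_Vn] at hv
        exact ⟨hv.1, hv.2.1, types v 10 (Or.inl ⟨rfl, hv.2.2.2⟩) hv.1 hv.2.2.1⟩)
    have e6 : 10 - 4 = 6 := rfl
    rw [e6] at h
    have h' : (#{v ∈ Vn ι 10 | ev v = 0 ∧ ell v ≤ 6 ∧ ¬ X2 v} : ℝ) ≤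
        #{a ∈ Vn ι 6 | ell a ≤ 2} + (#{a ∈ Vn ι 0 | ell a ≤ 2} + #{a ∈ Vn ι 1 | ell a ≤ 2} +
          #{a ∈ Vn ι 2 | ell a ≤ 2}) := by exact_mod_cast h
    calc (#{v ∈ Vn ι 10 | ev v = 0 ∧ ell v ≤ 6 ∧ ¬ X2 v} : ℝ) ≤ _ := h'
      _ ≤ |C6| * (Fintype.card ι : ℝ) ^ 2 + (|C0| * (Fintype.card ι : ℝ) ^ 2 +
          |C1| * (Fintype.card ι : ℝ) ^ 2 + |C2| * (Fintype.card ι : ℝ) ^ 2) := by
            linarith
      _ ≤ (|C6| + |C5| + (|C0| + |C1| + |C2|)) * (Fintype.card ι : ℝ) ^ 2 := by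
            linarith
  · have h := count_nx hPC hodd 9 (by norm_num) (by norm_num)
      {v ∈ Vn ι 9 | ev v = 0 ∧ ell v ≤ 6 ∧ ¬ X1 v} (fun v hv => by
        rw [mem_filter, mem_Vn] at hv
        exact ⟨hv.1, hv.2.1, types v 9 (Or.inr ⟨rfl, hv.2.2.2⟩) hv.1 hv.2.2.1⟩)
    have e5 : 9 - 4 = 5 := rfl
    rw [e5] at h
    have h' : (#{v ∈ Vn ι 9 | ev v = 0 ∧ ell v ≤ 6 ∧ ¬ X1 v} : ℝ) ≤
        #{a ∈ Vn ι 5 | ell a ≤ 2} + (#{a ∈ Vn ι 0 | ell a ≤ 2} + #{a ∈ Vn ι 1 | ell a ≤ 2} +
          #{a ∈ Vn ι 2 | ell a ≤ 2}) := by exact_mod_cast h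
    calc (#{v ∈ Vn ι 9 | ev v = 0 ∧ ell v ≤ 6 ∧ ¬ X1 v} : ℝ) ≤ _ := h'
      _ ≤ |C5| * (Fintype.card ι : ℝ) ^ 2 + (|C0| * (Fintype.card ι : ℝ) ^ 2 +
          |C1| * (Fintype.card ι : ℝ) ^ 2 + |C2| * (Fintype.card ι : ℝ) ^ 2) := by
            linarith
      _ ≤ (|C6| + |C5| + (|C0| + |C1| + |C2|)) * (Fintype.card ι : ℝ) ^ 2 := by
            linarith

end

end Pool.Agent.H2.GC
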